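import Pool.Agent.MVD.Stmts

/-!
# Squad MVD, row DEC
-/

namespace Pool.Agent.MVD.H31

open Pool.Agent.Helper14_MV Pool.Agent.Helper2_MV Pool.Agent.MVD

theorem bw_congr {R : List ℕ} {B B' : ℕ → List ℕ} (h : ∀ r ∈ R, B r = B' r) :
    Bw R B = Bw R B' := by
  induction R with
  | nil => rfl
  | cons a R ih =>
    have h1 := ih (fun r hr => h r (List.mem_cons_of_mem _ hr))
    unfold Bw at h1 ⊢
    rw [List.flatMap_cons, List.flatMap_cons, h1, h a (by simp)]

theorem bw_cons (a : ℕ) (R : List ℕ) (B : ℕ → List ℕ) :
    Bw (a :: R) B = B a ++ (3 * a + 2) :: Bw R B := by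
  unfold Bw
  rw [List.flatMap_cons]
  simp

theorem bw_filter (R : List ℕ) (B : ℕ → List ℕ) (h : ∀ r ∈ R, SFr (B r)) :
    (Bw R B).filter (fun c => decide (c % 3 = 2)) = R.map (fun r => 3 * r + 2) := by
  induction R with
  | nil => rfl
  | cons a R ih =>
    have h1 := ih (fun r hr => h r (List.mem_cons_of_mem _ hr))
    rw [bw_cons, List.filter_append, List.filter_cons, h1]
    have h2 : (B a).filter (fun c => decide (c % 3 = 2)) = [] := by
      rw [List.filter_eq_nil_iff]
      intro c hc hcc
      exact h a (by simp) c hc (of_decide_eq_true hcc)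
    have h3 : decide ((3 * a + 2) % 3 = 2) = true := by
      apply decide_eq_true
      omega
    rw [h2, h3]
    simp

theorem dec_aux (R : List ℕ) : ∀ w' : List ℕ, R.Nodup →
    w'.filter (fun c => decide (c % 3 = 2)) = R.map (fun r => 3 * r + 2) →
    ∃ (B' : ℕ → List ℕ) (e : List ℕ), (∀ r, SFr (B' r)) ∧ SFr e ∧ w' = Bw R B' ++ e := by
  induction R with
  | nil =>
    intro w' _ h
    refine ⟨fun _ => [], w', fun r c hc => by simp at hc, fun c hc hcc => ?_, rfl⟩
    rw [List.map_nil, List.filter_eq_nil_iff] at h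
    exact h c hc (decide_eq_true hcc)
  | cons a R ih =>
    intro w' hn h
    rw [List.map_cons, List.filter_eq_cons_iff] at h
    obtain ⟨l₁, l₂, hw, h1, -, h2⟩ := h
    obtain ⟨B'', e, hB, he, hl⟩ := ih l₂ (List.nodup_cons.1 hn).2 h2
    refine ⟨Function.update B'' a l₁, e, fun r => ?_, he, ?_⟩
    · by_cases hr : r = a
      · subst hr
        rw [Function.update_self]
        intro c hc hcc
        exact h1 c hc (decide_eq_true hcc)
      · rw [Function.update_of_ne hr]
        exact hB r
    · have hcg : Bw R (Function.update B'' a l₁) = Bw R B'' := by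
        refine bw_congr (fun r hr => ?_)
        have hne : r ≠ a := by
          intro hra
          subst hra
          exact (List.nodup_cons.1 hn).1 hr
        exact Function.update_of_ne hne _ _
      rw [bw_cons, Function.update_self, hcg]
      rw [hw, hl]
      simp

/-- **DEC** -/
theorem dec (lin : LinStmt) : DecStmt := by
  intro β H R B w' hn hB hr
  have h1 := hr.filter (fun c => decide (c % 3 = 2))
  rw [bw_filter R B hB] at h1
  have h2 : (R.map (fun r => 3 * r + 2)).Nodup :=
    hn.map (fun x y hxy => by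
      have : 3 * x + 2 = 3 * y + 2 := hxy
      omega)
  exact dec_aux R w' hn (lin β H _ _ h2 h1)

end Pool.Agent.MVD.H31
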